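import Pool.Agent.Q43.G4.Def4

/-!
# Tate classes of codimension two on the fourth power of an abelian variety decide those on its products with pure motives with small Hodge numbers

Let `A` be an abelian variety over a number field `F` with trivial Rosati involution (for instance
`End(A) = ℤ`, or a product of abelian varieties of type I which are not isogenous to each other) whose
nonzero Tate forms on `h_1(A)` have rank at least `2 r₀`, `r₀ ≥ 3` (if `End(A) = ℤ`: `dim A ≥ r₀`; if the
simple factors have real multiplication by fields of degree `e_i`: `dim A_i ≥ r₀ e_i`). Suppose that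
every Tate form in FOUR variables on `V = V_ℓ(A)` is a linear combination of products of two Tate forms
in two variables, which are given by divisors by the theorem of Faltings: so that the Tate classes of
codimension two on `A ^ 4` are generated by divisor classes. If `End(A) = ℤ` this only says that the
space of these forms has dimension three: the fourth moment of the group is three (part (2)).

Let `M_i`, `i` in any set `I`, be pure motives over `F`, `M_i` of weight `-d_i` (for instance the
homology `h_d(Z)` of a smooth projective variety `Z`, or a direct summand of it; up to Tate twists these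
are all pure motives), each of one of the following kinds.

* (a) `M_i` has small Hodge numbers: `h^{p,q}(M_i) < r₀` for all `p ≠ q` (no condition on the Hodge
  number `h^{p,p}`, so no bound for the rank).
* (b) `M_i` is potentially abelian: a subgroup of finite index of the Galois group acts on its
  realization through an abelian group (motives of CM type, Artin motives, motives of Fermat
  hypersurfaces).
* (c) `M_i` is ANY motive whose Frobenius eigenvalues are separated from those of `A` at one place
  (which may depend on `i`): no power of a number `a ^ 2 / q`, `a` an eigenvalue of the Frobenius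
  element on `h_1(A)`, is in the group generated by the numbers `β ^ 2 / q ^ (d_i)`, `β` an eigenvalue
  on `M_i`. This holds if an automorphism of the complex numbers fixes the eigenvalues on `M_i` and acts
  as the complex conjugation on those on `h_1(A)`.

**Theorem.** The Tate classes in `H^r(A ^ n)` times the realization of a tensor product of the duals
of any of the `M_i`, with arbitrary multiplicities, are zero if `r` is odd, and linear combinations of
products of `r / 2` divisor classes on `A ^ n` and of Tate classes of the tensor product of the motives if
`r` is even. So the Tate conjecture for the motives generated (with tensor products, sums, summands,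
twists and duals) by `h(A)` and the `M_i` follows from the Tate conjecture for the motives generated by
the `M_i` alone, as soon as it is known in codimension two for the products of divisors on `A ^ 4`.

Nothing is assumed about Frobenius elements of `A`, except for (c). One Frobenius element on `h_1(A)`
whose characteristic polynomial has no multiple roots, and only trivial multiplicative relations of
length four between its roots, implies the condition on the forms in four variables (part (3)), so
the theorem contains the one which had this stronger assumption. The condition holds if the image of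
the Galois group is open in the group of symplectic similitudes, for example if `End(A) = ℤ` and
`dim A` is odd (Serre), or in general under the Mumford–Tate conjecture for `A` if the Hodge group of
`A` is the largest possible.

For the powers of `A` alone (`I` empty) the theorem is a version of Larsen's alternative for the fourth
moment. What is new is that the fourth moment of `A` decides the Tate classes on its products with all
motives with Hodge numbers less than `r₀` outside of the middle. The bound is sharp: `h_1(A)` itself
has the Hodge numbers `h^{1,0} = h^{0,1} = dim A`.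

The proof. Let `F` be a multilinear form in vectors of `V` and of the realizations `W_i` which is a
Tate class. The pairs `(X, (Y_i))` of operators which kill `F` and commute with the commutants of the
Galois group are a Lie algebra. By a theorem of Sen and the Hodge–Tate decomposition of Faltings, it
contains over the complex numbers a multiple of the Hodge–Tate operators minus scalars, whose first
component is not zero on any eigenspace of the commutant; with linear functions `ℂ → ℚ_ℓ(α)` one
gets such elements over a finite extension of `ℚ_ℓ`. The first projection is a space of operators in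
the product of the symplectic Lie algebras of the eigenspaces, stable under the group; a projection to
it is an equivariant operator on `End V` (semisimplicity), so it defines a Tate form in four
variables, and it is a scalar on every factor by the assumption. So the first projection contains
these symplectic Lie algebras. If a symplectic Lie algebra `sp(N)`, `dim N ≥ 2 r₀ ≥ 6`, acted in a
nontrivial way on a subquotient of `W_i`, the Hodge–Tate operator would have an eigenvalue different
from `d_i / 2` of multiplicity at least `r₀`. So in case (a) the Lie algebra contains `(X, (Y_i))` with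
`X` any element of `sp(N)` and `Y_i = 0`; in case (b) because `sp(N)` is perfect, in case (c) by a
logarithm of the Frobenius element. A Goursat argument gives this for all `i` at the same time. So `F`
is killed by the symplectic Lie algebras acting on the variables from `V` alone, and the first
fundamental theorem of invariant theory gives the result.

In the Lean statement `V` is the rational Tate module of `A` with the action `ρ` of the Galois group `Γ`
and the Weil pairing `ω` of a polarization (`IsTateModule` and `AdjointIsSemisimple` contain the
semisimplicity theorem of Faltings for `V` and `End V`), `W i` is the `ℓ`-adic realization of `M_i` with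
the action `σ i` of `Γ`, `χ` is the cyclotomic character, `D` and `B i` are the Hodge–Tate operators
(`IsHodgeTateFamily` contains what is used of the theorem of Sen), and `productRep σ t` is the dual of
the tensor product of the `W (t l)`.
-/

set_option autoImplicit false

namespace Pool.Agent.Results.MP_3703a7_ag.FourVariablesDecide

open Module TensorProduct Pool.Agent.TH776.FM Pool.Agent.TH776.FL Pool.Agent.Q43.GT
  Pool.Agent.Q43.G4

/-- **Tate classes in four variables decide.** -/
theorem result :
    -- Tate classes on the products
    (∀ (ℓ r₀ : ℕ) [Fact ℓ.Prime] [Algebra ℚ_[ℓ] ℂ] (V Γ I : Type) (W : I → Type)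
      [AddCommGroup V] [Module ℚ_[ℓ] V] [FiniteDimensional ℚ_[ℓ] V] [∀ i, AddCommGroup (W i)]
      [∀ i, Module ℚ_[ℓ] (W i)] [∀ i, FiniteDimensional ℚ_[ℓ] (W i)] [Group Γ]
      (ρ : Representation ℚ_[ℓ] Γ V) (σ : ∀ i, Representation ℚ_[ℓ] Γ (W i)) (χ : Γ →* ℚ_[ℓ])
      (ω : V →ₗ[ℚ_[ℓ]] V →ₗ[ℚ_[ℓ]] ℚ_[ℓ]) (D : Module.End ℂ (ℂ ⊗[ℚ_[ℓ]] V))
      (B : ∀ i, Module.End ℂ (ℂ ⊗[ℚ_[ℓ]] W i)) (d : I → ℕ),
      IsTateModule ρ χ ω → RosatiTrivial ρ ω → AdjointIsSemisimple ρ →
      IsHodgeTateFamily ρ σ χ ω D B → FourFormsAreProducts ρ χ → 3 ≤ r₀ →
      TateFormsHaveRankAtLeast ρ χ (2 * r₀) →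
      (∀ i, HodgeNumbersAreLessThan (B i) (d i) r₀ ∨ IsPotentiallyAbelian (σ i) ∨
        IsSeparatedAtOnePlace ρ χ (σ i) (d i)) →
      ∀ (n : ℕ) (t : Fin n → I), TateClassesInDegree ρ (productRep σ t) χ (∑ l, d (t l))) ∧
    -- abelian varieties without endomorphisms
    (∀ (ℓ : ℕ) [Fact ℓ.Prime] (V Γ : Type) [AddCommGroup V] [Module ℚ_[ℓ] V]
      [FiniteDimensional ℚ_[ℓ] V] [Group Γ] (ρ : Representation ℚ_[ℓ] Γ V) (χ : Γ →* ℚ_[ℓ])
      (ω : V →ₗ[ℚ_[ℓ]] V →ₗ[ℚ_[ℓ]] ℚ_[ℓ]), IsTateModule ρ χ ω →
      (∀ T : Module.End ℚ_[ℓ] V, (∃ Δ : Subgroup Γ, Δ.FiniteIndex ∧ ∀ s ∈ Δ, ∀ v,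
        T (ρ s v) = ρ s (T v)) → ∃ c : ℚ_[ℓ], ∀ v, T v = c • v) →
      RosatiTrivial ρ ω ∧ TateFormsHaveRankAtLeast ρ χ (finrank ℚ_[ℓ] V) ∧
        (4 ≤ finrank ℚ_[ℓ] V → FourthMomentAtMostThree ρ χ → FourFormsAreProducts ρ χ)) ∧
    -- one good Frobenius element
    (∀ (ℓ q : ℕ) [Fact ℓ.Prime] (V Γ : Type) [AddCommGroup V] [Module ℚ_[ℓ] V]
      [FiniteDimensional ℚ_[ℓ] V] [Group Γ] (ρ : Representation ℚ_[ℓ] Γ V) (χ : Γ →* ℚ_[ℓ])
      (ω : V →ₗ[ℚ_[ℓ]] V →ₗ[ℚ_[ℓ]] ℚ_[ℓ]) (γ : Γ) (P : Polynomial ℚ), IsTateModule ρ χ ω →
      RosatiTrivial ρ ω → IsGoodFrobenius ρ χ γ P q → FourFormsAreProducts ρ χ) := by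
  refine ⟨?_, ?_, ?_⟩
  · intro ℓ r₀ _ _ V Γ I W _ _ _ _ _ _ _ ρ σ χ ω D B d hA hR hadj hHT hfour hr hrk hB n t
    exact tate_blk ρ σ χ ω hA.alt hA.nondeg hA.similitude (semiUnder hA) hadj hfour
      (fun m => symmetric_zero hA hR m) hHT hr hrk hB n t
  · intro ℓ _ V Γ _ _ _ _ ρ χ ω hA hs
    obtain ⟨h1, h2⟩ := rank_of_scalars ρ χ ω hA hs
    exact ⟨h1, h2, fun hdim hmom => four_of_moment hA.alt hA.nondeg hA.similitude hdim hmom⟩
  · intro ℓ q _ V Γ _ _ _ _ ρ χ ω γ P hA hR hγ
    exact four_of_frobenius hA hR hγ

end Pool.Agent.Results.MP_3703a7_ag.FourVariablesDecide
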