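import Pool.Agent.Q50.TA.Mfin

/-!
# The Tate conjecture for the endomorphisms of a motive passes from one prime to all primes

Let `M` be a motive over a number field, a direct summand of the motive of a smooth projective
variety `X`. Suppose that for one prime `ℓ₀` the realisation of `M` is a semisimple representation
and the endomorphisms of this representation, over all finite extensions of the number field, are
combinations of algebraic endomorphisms. Suppose also that, over the complex numbers, the
monodromy on each of the constituents of the `ℓ₀`-adic realisation is large: for instance, that the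
Zariski closure of the image contains the special linear group of the constituent. Then, for every
prime `ℓ`, the `ℓ`-adic realisation of `M` is semisimple, and its endomorphisms are combinations of
algebraic endomorphisms.

For each constituent `S` at `ℓ₀` the algebraic endomorphisms cut out a subrepresentation `T` at `ℓ`
with the same characteristic polynomials of the Frobenius elements. If `T` were reducible, the
determinant of a subrepresentation would be given by an algebraic Hecke character, hence by an
`ℓ₀`-adic character `ψ`, and `ψ` would be a product of some of the eigenvalues of Frobenius on `S`.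
This would be true for all elements by the theorem of Chebotarev, in particular for the
commutators, for which `ψ` is `1`: a contradiction. Semisimplicity at `ℓ` is not assumed; it
follows, and the traces show that different `T` are not isomorphic.
-/

open CategoryTheory AlgebraicGeometry

universe u w

namespace Pool.Agent.Results.MP_3703a7_ag.MotivesAtOnePrime

open Pool.Agent.H914 Pool.Agent.H914.VarClass.Obj
open Pool.Agent.Q55 (GaloisAction)
open Pool.Agent.Q50.MTC (IsLadic)
open Pool.Agent.Q50.LI (Artin)
open Pool.Agent.Q50.TA (FrobeniusSet IsProjector BigAt TateMotive)

variable {k : Type u} [Field k] {𝒱 : VarClass k} {ops : CycleOps 𝒱}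
  {W E₀ E : WeilCohomology.{u, 0} ops} [Algebra W.K E₀.K] [Algebra W.K E.K] [Algebra E₀.K ℂ]
  [Algebra E.K ℂ] {Γ : Type w} [Group Γ] [TopologicalSpace Γ] {G₀ : GaloisAction E₀ Γ}
  {G : GaloisAction E Γ}

/-- **The Tate conjecture for the endomorphisms of a motive: from one prime to all primes.** Let
`W` be the cohomology with rational coefficients (`hrat`), let `E₀` be the `ℓ₀`-adic and `E` the
`ℓ`-adic cohomology, with the actions `G₀` and `G` of the Galois group `Γ`, and let `A₀` and `A` be
Artin's comparison maps. Let `X` be a variety for which the actions are `ℓ₀`-adic and `ℓ`-adic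
(`hX₀`, `hX`), and let `Fr` be the set of Frobenius elements (`hF`): it is dense, the trace formula
holds for its elements, and the determinants on the `ℓ`-adic subrepresentations are compatible with
`ℓ₀`-adic characters.

Let `M = (X, p)` be a motive: the `r j` are rational numbers, the `z j` are cycles of codimension
`dim X` on `X × X`, and `∑ r j z j` gives the idempotents `p₀` and `p` of the `ℓ₀`-adic and the
`ℓ`-adic cohomology. Suppose that the `ℓ₀`-adic monodromy of `M` is large (`hbig`): for every
subspace `S` of the extension to the complex numbers of `p₀ H^i(X)` which is strongly irreducible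
for an open subgroup `Δ` there is an element of `⁅Δ, Δ⁆` such that no product of some, but not all,
of its eigenvalues on `S` is `1`. Suppose that the strong form of the Tate conjecture holds for the
endomorphisms of the `ℓ₀`-adic realisation of `M` (`hTC₀`). Then it holds for the endomorphisms of
the `ℓ`-adic realisation of `M`: this realisation is semisimple, and its endomorphisms which
commute with a subgroup of finite index of the Galois group are combinations of endomorphisms given
by algebraic cycles.

The hypothesis `hbig` holds if for every such `S` the Zariski closure of the image of `Δ` in the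
general linear group of `S` contains the special linear group, and it always holds if all such `S`
have dimension at most `2`. -/
theorem result (hrat : ∀ r : W.K, ∃ q : ℚ, (q : W.K) = r) (A₀ : Artin W E₀) (A : Artin W E)
    {ℓ₀ ℓ : ℕ} [Fact ℓ₀.Prime] [Fact ℓ.Prime] (e₀ : E₀.K ≃+* ℚ_[ℓ₀]) (e : E.K ≃+* ℚ_[ℓ])
    (X : 𝒱.Obj) (hX₀ : IsLadic (G₀.ρ X) G₀.χ e₀) (hX : IsLadic (G.ρ X) G.χ e)
    (Fr : Set Γ) (hF : FrobeniusSet G₀ G e₀ X Fr)
    (m : ℕ) (r : Fin m → ℚ) (z : Fin m → (X.prod X).Cycles)
    (hz : ∀ j, (X.prod X).IsCyc X.dim (z j))
    (p₀ : E₀.H X →ₗ[E₀.K] E₀.H X) (hp₀ : IsProjector E₀ X r z p₀)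
    (p : E.H X →ₗ[E.K] E.H X) (hp : IsProjector E X r z p)
    (hbig : BigAt (G₀.ρ X) (E₀.gr X) p₀) (hTC₀ : TateMotive G₀ X p₀) : TateMotive G X p :=
  Pool.Agent.Q50.TA.main_motive hrat A₀ A hX₀ hX hF hz hp₀ hp hbig hTC₀

end Pool.Agent.Results.MP_3703a7_ag.MotivesAtOnePrime
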