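import Pool.Agent.Q282.OI.MainS
import Pool.Agent.Y100.ZS.Tenss

/-!
# Symplectic motives: the Mumford-Tate conjecture at one prime implies it at 100 percent of the primes,
together with the Tate conjecture for all classes on all powers

Let `M` be a motive over a number field `K` with an alternating polarization (for instance the primitive
part of the cohomology of odd degree of a smooth projective variety, or a factor of it cut out by
algebraic correspondences), of rank `N > 0`, and let `V_ℓ` be its `ℓ`-adic realizations: representations of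
the Galois group `G_K` on `ℚ_ℓ ^ N` by similitudes of an alternating form `J_ℓ`, such that at the places
`v ∉ S` the geometric Frobenius element has a characteristic polynomial `P_v` with rational coefficients
and a multiplier `q_v`, independent of `ℓ`.

**Theorem.** The following statements are equivalent:
(1) for ONE odd prime number `ℓ` the image of `G_K` contains an open subgroup of the symplectic group of
`J_ℓ`;
(2) this is true for all prime numbers outside of a set of natural density zero, and there every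
multilinear form in any number of variables on `V_ℓ` which is invariant under the isometries in an open
subgroup of `G_K` is a linear combination of products of values of `J_ℓ`;
(3) (a finite check) there are places `v, w ∉ S` and an automorphism `σ` of the algebraic closure of `ℚ`
such that the roots of `P_v` are simple, no quotient of two different roots is a root of unity and `σ`
permutes them transitively, the roots of `P_w` are simple, `x / y = z / u` for roots `x ≠ y`, `z`, `u` of `P_w`
only in the trivial cases `(z, u) = (x, y)` and `(z, u) = (q / y, q / x)`, `q` the multiplier, and `σ` fixes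
all roots of `P_w`.

So if the motivic Galois group of `M` is the full group of symplectic similitudes, then the Mumford-Tate
conjecture for `M` at one odd prime implies at 100 percent of the primes the Mumford-Tate conjecture for
`M` and the Tate conjecture for ALL classes of all degrees on all powers of `M`, over all finite
extensions of `K`; and this can be proved by a computation with two Frobenius elements (and a third
prime number at which one decomposes the polynomials). Nothing is assumed about the representations at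
the other primes, which could be reducible or not semisimple. For abelian varieties the independence of
`ℓ` follows from Faltings' theorem (Larsen-Pink); for other motives no such theorem is known.

Idea of the proof. From (1) to (3): the Frobenius elements are dense in the open image, so one can
prescribe the `ℓ`-adic type of the Frobenius tori: an unramified torus on which the Galois group of `ℚ_ℓ`
acts by a full cycle, and a split torus. From (3) to (2): at the primes `ℓ` whose Frobenius class contains `σ`
the polynomial `P_v` is irreducible over `ℚ_ℓ` and `P_w` splits, so `V_ℓ` is irreducible, and the root spaces of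
the Frobenius element at `w` show that the image is open. With infinitely many such primes one constructs
for every number field `M` a place whose Frobenius polynomial still has full cycles and trivial classes over
`M` (local types at several primes, and Minkowski's theorem). A prime `ℓ` at which the image is not open
avoids certain classes in the Galois groups of infinitely many independent fields which one gets in this
way, so these `ℓ` have density zero by Chebotarev's theorem.
-/

set_option autoImplicit false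

namespace Pool.Agent.Results.MP_3703a7_ag.OneSymplecticPrimeDecides

open Matrix Polynomial Filter Topology NumberField IsDedekindDomain

/-- the absolute Galois group of `K`, with its profinite (Krull) topology -/
abbrev AbsoluteGaloisGroup (K : Type) [Field K] : Type := Gal(AlgebraicClosure K/K)

/-- `σ` is an (arithmetic) Frobenius element at the prime `v` of the number field `K`: for some prime
`Q` of the algebraic closure above `v` it acts on the residue field as `x ↦ x ^ N(v)` -/
def IsFrobenius {K : Type} [Field K] [NumberField K] (v : HeightOneSpectrum (𝓞 K))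
    (σ : AbsoluteGaloisGroup K) : Prop :=
  ∃ Q : Ideal (𝓞 (AlgebraicClosure K)), Q.IsMaximal ∧
    Q.comap (algebraMap (𝓞 K) (𝓞 (AlgebraicClosure K))) = v.asIdeal ∧
    ∀ x : 𝓞 (AlgebraicClosure K), σ • x - x ^ Ideal.absNorm v.asIdeal ∈ Q

/-- `ρ` is a continuous representation of `G_K` on `ℚ_ℓ ^ N` by similitudes of the nondegenerate
alternating form with the matrix `J`; for all `v ∉ S` which are prime to `ℓ` the characteristic polynomial
of the geometric Frobenius elements `σ⁻¹` (`σ` arithmetic) at `v` is `P v`, and their multiplier is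
`q v` -/
def IsSymplecticSystem (K : Type) [Field K] [NumberField K] (N ℓ : ℕ) [Fact ℓ.Prime]
    (ρ : AbsoluteGaloisGroup K →* Matrix (Fin N) (Fin N) ℚ_[ℓ])
    (J : Matrix (Fin N) (Fin N) ℚ_[ℓ]) (S : Set (HeightOneSpectrum (𝓞 K)))
    (P : HeightOneSpectrum (𝓞 K) → ℚ[X]) (q : HeightOneSpectrum (𝓞 K) → ℚ) : Prop :=
  Continuous ρ ∧ Jᵀ = -J ∧ J.det ≠ 0 ∧ (∀ g, ∃ c : ℚ_[ℓ], (ρ g)ᵀ * J * ρ g = c • J) ∧
    ∀ v ∉ S, (ℓ : 𝓞 K) ∉ v.asIdeal → ∀ σ : AbsoluteGaloisGroup K, IsFrobenius v σ →
      (ρ σ⁻¹).charpoly = (P v).map (algebraMap ℚ ℚ_[ℓ]) ∧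
        (ρ σ⁻¹)ᵀ * J * ρ σ⁻¹ = (q v : ℚ_[ℓ]) • J

/-- the image of `ρ` contains a neighbourhood of `1` in the symplectic group of `J` -/
def HasOpenImage {K : Type} [Field K] {N : ℕ} (ℓ : ℕ) [Fact ℓ.Prime]
    (ρ : AbsoluteGaloisGroup K →* Matrix (Fin N) (Fin N) ℚ_[ℓ])
    (J : Matrix (Fin N) (Fin N) ℚ_[ℓ]) : Prop :=
  ∃ ε : ℝ, 0 < ε ∧ ∀ g : Matrix (Fin N) (Fin N) ℚ_[ℓ], gᵀ * J * g = J →
    (∀ i j, ‖(g - 1) i j‖ < ε) → ∃ σ, ρ σ = g

/-- every multilinear form in any number `k` of variables on `ℚ_ℓ ^ N` which is invariant under the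
isometries `ρ σ`, `σ` in an open subgroup of the Galois group, is a linear combination of the products
`∏ J(v_j, v_{π j})` (one factor for every pair `{j, π j}`), `π` a perfect matching of the variables -/
def TateTensorsFromForm {K : Type} [Field K] {N : ℕ} (ℓ : ℕ) [Fact ℓ.Prime]
    (ρ : AbsoluteGaloisGroup K →* Matrix (Fin N) (Fin N) ℚ_[ℓ])
    (J : Matrix (Fin N) (Fin N) ℚ_[ℓ]) : Prop :=
  ∀ (k : ℕ) (φ : MultilinearMap ℚ_[ℓ] (fun _ : Fin k => Fin N → ℚ_[ℓ]) ℚ_[ℓ])
    (U : Subgroup (AbsoluteGaloisGroup K)), IsOpen (U : Set (AbsoluteGaloisGroup K)) →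
    (∀ σ ∈ U, (ρ σ)ᵀ * J * ρ σ = J → ∀ v, φ (fun j => ρ σ *ᵥ v j) = φ v) →
    (fun v => φ v) ∈ Submodule.span ℚ_[ℓ] {f : (Fin k → Fin N → ℚ_[ℓ]) → ℚ_[ℓ] |
      ∃ π : Equiv.Perm (Fin k), (∀ j, π (π j) = j) ∧ (∀ j, π j ≠ j) ∧
        ∀ v, f v = ∏ j with j < π j, (v j ⬝ᵥ J *ᵥ v (π j))}

/-- the finite data: the roots of `P v` are simple, different roots have different `j`-th powers for all
`j > 0`, and `σ` permutes them transitively; the roots of `P w` are simple, the quotients `x / y` of
different roots are different, except for `x / y = (q / y) / (q / x)`, and `σ` fixes them -/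
def IsWitness {K : Type} [Field K] [NumberField K]
    (S : Set (HeightOneSpectrum (𝓞 K))) (P : HeightOneSpectrum (𝓞 K) → ℚ[X])
    (q : HeightOneSpectrum (𝓞 K) → ℚ) (v w : HeightOneSpectrum (𝓞 K))
    (σ : AbsoluteGaloisGroup ℚ) : Prop :=
  (v ∉ S ∧ (P v).Separable ∧
    (∀ (j : ℕ) (x y : AlgebraicClosure ℚ), 0 < j → aeval x (P v) = 0 → aeval y (P v) = 0 →
      x ^ j = y ^ j → x = y) ∧
    ∀ x y : AlgebraicClosure ℚ, aeval x (P v) = 0 → aeval y (P v) = 0 →
      ∃ k : ℕ, (σ ^ k) x = y) ∧
  w ∉ S ∧ (P w).Separable ∧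
    (∀ x y z u : AlgebraicClosure ℚ, aeval x (P w) = 0 → aeval y (P w) = 0 →
      aeval z (P w) = 0 → aeval u (P w) = 0 → x ≠ y → x * u = z * y →
      (z = x ∧ u = y) ∨
        (z * y = (q w : AlgebraicClosure ℚ) ∧ u * x = (q w : AlgebraicClosure ℚ))) ∧
    ∀ x : AlgebraicClosure ℚ, aeval x (P w) = 0 → σ x = x

/-- the set `A` of prime numbers has natural density zero -/
def HasDensityZero (A : Set ℕ) : Prop :=
  Tendsto (fun n : ℕ => (Nat.card {ℓ : ℕ // ℓ ≤ n ∧ ℓ ∈ A} : ℝ) / (Nat.primeCounting n : ℝ))
    atTop (𝓝 0)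

/-- **One prime decides (symplectic motives).** -/
theorem result (K : Type) [Field K] [NumberField K] (N : ℕ) (hN : 0 < N)
    (S : Set (HeightOneSpectrum (𝓞 K))) (hS : S.Finite) (P : HeightOneSpectrum (𝓞 K) → ℚ[X])
    (q : HeightOneSpectrum (𝓞 K) → ℚ)
    (ρ : ∀ (ℓ : ℕ) [Fact ℓ.Prime], AbsoluteGaloisGroup K →* Matrix (Fin N) (Fin N) ℚ_[ℓ])
    (J : ∀ (ℓ : ℕ) [Fact ℓ.Prime], Matrix (Fin N) (Fin N) ℚ_[ℓ])
    (hρ : ∀ (ℓ : ℕ) [Fact ℓ.Prime], IsSymplecticSystem K N ℓ (ρ ℓ) (J ℓ) S P q) :
    List.TFAE
      [∃ ℓ : ℕ, ∃ _ : Fact ℓ.Prime, ℓ ≠ 2 ∧ HasOpenImage ℓ (ρ ℓ) (J ℓ),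
      HasDensityZero {ℓ | ∃ _ : Fact ℓ.Prime, ¬ (HasOpenImage ℓ (ρ ℓ) (J ℓ) ∧
        TateTensorsFromForm ℓ (ρ ℓ) (J ℓ))},
      ∃ (v w : HeightOneSpectrum (𝓞 K)) (σ : AbsoluteGaloisGroup ℚ), IsWitness S P q v w σ] := by
  have hTENSS : Y142.ZS.S_TENSS := Y100.ZS.t
  have key := Q282.OI.symp (K := K) (S := S) (P := P) (q := q) hN hS ρ J hρ
  have h12 := key.out 0 1
  have h13 := key.out 0 2
  have htens : ∀ (ℓ : ℕ) [Fact ℓ.Prime], HasOpenImage ℓ (ρ ℓ) (J ℓ) →
      TateTensorsFromForm ℓ (ρ ℓ) (J ℓ) := fun ℓ _ ho =>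
    hTENSS ℓ N _ (ρ ℓ) (hρ ℓ).1 (J ℓ) (hρ ℓ).2.1 (hρ ℓ).2.2.1 ho
  tfae_have 1 ↔ 2 := by
    refine h12.trans ?_
    have hset : {ℓ : ℕ | ∃ _ : Fact ℓ.Prime, ¬ Y142.ZS.OpenSp ℓ (ρ ℓ) (J ℓ)} =
        {ℓ | ∃ _ : Fact ℓ.Prime, ¬ (HasOpenImage ℓ (ρ ℓ) (J ℓ) ∧
          TateTensorsFromForm ℓ (ρ ℓ) (J ℓ))} := by
      ext ℓ
      constructor
      · rintro ⟨hp, h⟩
        exact ⟨hp, fun h' => h h'.1⟩
      · rintro ⟨hp, h⟩
        exact ⟨hp, fun h' => h ⟨h', htens ℓ h'⟩⟩
    rw [hset]
    exact Iff.rfl
  tfae_have 1 ↔ 3 := h13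
  tfae_finish

end Pool.Agent.Results.MP_3703a7_ag.OneSymplecticPrimeDecides
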