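import Mathlib
import Pool.Agent.Q29.TE.Law3
import Pool.Agent.Q29.BX.Rows
import Pool.Agent.Y1.TS.Main

/-!
# The Tate conjecture for the homomorphisms between the products of arbitrary motives with the
motives of abelian varieties with one Frobenius element of almost all slope types of typical CM
fields

Let `K i` (`i` in a finite set) be CM fields of degree `2 g i` which are pairwise independent: for
`i ≠ k` and all complex embeddings `φ` of `K i` and `ψ` of `K k` some automorphism of `ℂ` is the
identity on `φ (K i)` and the complex conjugation on `ψ (K k)` (this is no condition if there is
only one field).

We fix an isomorphism `ν` of the algebraic closure of `ℚ_p` with `ℂ`; it defines a `p`-adic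
valuation of `ℂ`, with the value one at `p`. Let `M i` be a function with integral values on the
complex embeddings of `K i`, invariant under complex conjugation (the weights). A CM type `Φ i` of
`K i` (a choice of one element out of each complex conjugate pair of embeddings), `M i` and a real
number `κ ≠ 0` prescribe the slopes `(a + κ M) / 2` (at the embeddings in `Φ i`) and `(a - κ M) / 2`
(outside of `Φ i`) of a Weil number for `p ^ a` in `K i`. If `p` splits completely in `K i` then, by
Honda and Tate, all rational slopes between `0` and `a` that are symmetric in this way occur for
abelian varieties over finite fields. The case `M = 1`, `κ = a` is the ordinary case.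

Let `k` be a number field, `A` an abelian variety over `k` and `γ` a Frobenius element of the Galois
group `Γ` of `k` at **one** place of good reduction, the residue field having `p ^ a` elements, for
which the characteristic polynomial on the Tate module `V = V_ℓ (A)` is the product of the minimal
polynomials of Weil numbers `π i` which generate the fields `K i` and have the slope types `Φ i`, `M
i`. Let `N`, `N'` be the `ℓ`-adic realizations of **two arbitrary pure motives** over `k`, or any
other representations of `Γ` of finite dimension, semisimple or not, such that

* the eigenvalues of `γ` on `Hom (N, N')` (the quotients of those on `N'` and on `N`) are roots of a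
  polynomial `f ≠ 0` with rational coefficients all of whose complex roots `α` are unrelated to the
  fields `K i` (`UnrelatedTo`): a function `n` on the complex embeddings of `K i` with `n (conj φ) =
  - n φ` which is invariant under all automorphisms of `ℂ` that fix a power of `α` is zero. This is
  so if for each embedding `ψ` of `K i` some automorphism which fixes a power of `α` is the complex
  conjugation on `ψ (K i)`: for instance, if a power of `α` lies in a field linearly disjoint from
  the normal closures of the `K i`, or in a totally real field (a power of `p`, for instance).

The property `Q` of the slope types is the following (`HomsSplit`): **the homomorphisms `h_j (A ^ r)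
⊗ N → N'` of the realizations which are equivariant for a subgroup of finite index of `Γ` are zero
for odd `j`, and linear combinations of products of `m` Tate classes of degree two on `A ^ r` (that
is, of divisor classes, by Faltings) and of equivariant homomorphisms `N → N' (- m)` for `j = 2
m`.** Here `h_j (A ^ r)` is the dual of `h^j (A ^ r)`, and these homomorphisms are the alternating
maps of `j` variables from `V ^ r` to `Hom (N, N')` (`ClassesSplit`). For every pair of motives in
the category generated by `h (A)`, and their tensor products with `N` and `N'`, the group on the
right side of the map `ρ_ℓ` is a direct summand of these. So for all these `A`, `N`, `N'`: **the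
surjectivity of the map `ρ_ℓ` of the question for `N ⊗ S`, `N' ⊗ S'`, with all motives `S`, `S'` in
the tensor category generated by `h (A)` and the Tate motives, is equivalent to the surjectivity for
`N`, `N' (m)`, all `m`** (over all finite extensions of `k`, and so over `k`). With `N`, `N'` the
unit motives it is the conjecture for all pairs of motives in the category generated by `h (A)`.
Nothing is assumed about the Mumford-Tate group of `A` or its endomorphisms: only one Frobenius
element at one place is used. The hypotheses on `V` (`IsPolarised`) are the Weil pairing and the
semisimplicity (Faltings).

**The theorem.** Let `E` be a CM field of degree `2 g`, and let all values of the weights `M` divide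
the number `n`.

* (`MostTypes`) For all `n` and `ε > 0` there is a number `u` such that the property `Q` is false
  for at most **a proportion of `max (ε, 0.68 q / g)` of the `2 ^ g` types** of `E`, if `g ≥ u`, the
  normal subfields of `E` are small (`SmallNormal`: `g` is odd, or all smooth parts of `g` are
  small, that is, a divisor of `g` with all prime factors at most `y` is at most `√(g y ^ 3) / (1 +
  log g) ^ 3`, for all `y ≥ 2`, for instance if `g` is large and has a prime factor larger than `√g
  (1 + log g) ^ 3`, but also if `g = 4 p ^ 2` with a large prime number `p`; or the subfields of `E`
  that are normal over `ℚ` are contained in a subfield of degree at most `√g / (1 + log g) ^ 2`),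
  and `q ≤ g` is at least the part of `g` composed of the primes 2 and 3 (or at least twice the
  number of the CM subfields of `E` of degree 4 or 6; `SmallPart`). In particular the property is
  true for almost all types of **all CM fields of degree `2 g` with `g` odd and prime to `3`**,
  without any condition on the Galois group or on the subfields; for at least 86 percent of all
  types if `g` is odd and not a power of 3; and for at least 32 percent of all types of all fields
  with small normal subfields (take `q = g`).
* (`OddDegrees`) For **all CM fields of degree `2 g` with `g` odd**, `g ≥ u (n)`, without any
  condition on the Galois group or the subfields, it is true for **at least one half of all types**,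
  and if all weights are one then for **at least two thirds of all types**.
* (`AllFields`) For **every CM field** `E`, of any degree `2 g`, without any condition on the Galois
  group or the subfields, and every `m`, the property is true for **all but a proportion of `g / (m
  + 1)` of all slope functions with denominator `m`**: they are `a (1 + D / m) / 2` with one of the
  `(m + 1) ^ g` functions `D` with `D φ̄ = - D φ`, `|D φ| ≤ m` and `D φ` congruent to `m` modulo 2
  (`Box`); the weights are `M = |D|`, and `D ≥ 0` on the type.
* (`AlmostAllTypes`, `AlmostAllDegrees`) Let `q ^ k ≤ g` for all `q` with `q ^ 2 ∣ g`. Then for all
  CM fields of degree `2 g` it is false for at most `2 ^ g * C * n ^ 2 * g ^ (6 / k - 1/4 + ε)`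
  types, `C = C (k, ε)`. At most `4 x ^ (1 - 1/k)` of the numbers `g ≤ x` do not have this property
  (`k ≥ 2`).

All this is proved more generally for finitely many pairwise independent fields `K i`; the
proportions of the types with the property are then multiplied (in the third
and the fourth part the bounds for the exceptions are added).

**What was known.** The starting files prove that almost all types of a CM field have no relations
if it has few CM subfields, and this for all CM fields of degree `2 g` if `g` has a prime factor
larger than `g ^ (1 / 2 + δ)`. For the fields with many CM subfields of the other degrees (examples
are `g = p q` with two nearly equal prime numbers, and `g = p ^ k`) this was open; for the degrees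
`2 r ^ k`, `r` prime, a theorem of this team gives the property for at least one half of all types,
by congruences (it is used here for `r = 3`). Some condition is necessary: if `E` is multiquadratic
and `M = 1` then nearly one half of all types is degenerate (`Pool.Agent.Q29.DP.multiquadratic`).

**The proof.** A multiplicative relation between the conjugates of the `π i` and a number `α` gives,
for each automorphism `σ` of `ℂ`, a linear relation between the signed weights `± M i (σ φ)`, by the
`p`-adic valuations. For `α = 1` and types without relations it is trivial; for general `α` we
compare the relation with its image under the automorphisms `τ` which fix a power of `α`: the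
exponents of `φ` minus those of `conj φ` are invariant under `τ`, and so zero. By this and the
semisimplicity (starting files: H204R3, Y137, Y1) the Tate classes are as stated.

**The proof** that there are no homogeneous relations between the signed weights `e = ± M` of the
types, `∑ n φ * e (σ φ) = 0` for all automorphisms `σ` of `ℂ`, with `n φ̄ = - n φ`, `n ≠ 0`: it
remains to estimate the number of the degenerate types: those for which `e` is orthogonal to a
minimal Galois-stable space `S` of antisymmetric functions on the set of the complex embeddings of
`E`. Let `G` be the Galois group of the normal closure and `H` the stabilizer of an embedding, `K`
the kernel of the action of `G` on `S` and `F` the field of `H K`; so `S` comes from `F` and is a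
faithful representation of the Galois group `G / K` of the normal closure of `F`. Let `c = e + d -
h` where `d` and `h` are the dimensions of `S` and of the part of `S` fixed by `H`, and `e` is the
dimension of the algebra of the endomorphisms of `S`. The spaces isomorphic to `S` form a component.

(A) The sum of `h d / e` over all components is at most `g`. A component with `c ≥ 3` contributes at
most `2 ^ g C n ^ 4 (h d / (e g)) (log g) ^ 21 / √g`; so these components together contribute
little. For this the size of `F` must be eliminated from the estimate of the starting files; this is
done with their inequality for small denominators and for groups of order `g ^ (log g)`.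

(B) The components with `c = 2` and dimension `d ≥ 3`: those with `d ≥ D` contribute at most `2 ^ g
64 log (4 D) / D` together. If `3 ≤ d < D` then by Minkowski `F` has bounded degree, and each
contributes `2 ^ g o (1 / g)`; this is the new analytic step. Let `p` be a prime number of the size
of a large multiple of `√g`. The spaces isomorphic to `S` have at most `2 ^ e p ^ (h - e)`
reductions `R` modulo `p`, and by Fourier analysis modulo `p` the number of the types orthogonal to
`R` is at most `2 ^ g p ^ (-d)` times the sum over the functions `u` in `R` of a product of cosines,
which is at most a Gaussian function of `u`. A short `u ≠ 0` generates `R` (short integral functions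
which are independent over `ℚ` are independent modulo `p`, by Gram determinants); so the sum over
all `R` of the sums over the `u ≠ 0` is at most one Gaussian sum, hence bounded, and altogether
there are at most `2 ^ g (2 ^ e p ^ (-2) + O (p ^ (-d)))` types.

(C) `c = d = 2`: then `F` has degree 4 or 6, there are at most as many of these components as CM
subfields of degree 4 or 6, and at most half of the part of `g` composed of 2 and 3; each
contributes at most `2 ^ g 1.351 / g`, by the theorem of Erdos on sums of weights with signs,
applied twice. If `g` is a power of 3, and for `OddDegrees`, these components are excluded by a
congruence modulo 3: the lattice of the relations contains a function that is invariant modulo 3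
under a Sylow 3-subgroup, which has two orbits on the embeddings.

(D) `c = 1`: then `F` is normal over `ℚ`, `d ^ 2 ≤ [F : ℚ] / 2`, and the component contributes at
most `2 ^ g C n (log g) ^ (3/2) √(d / g)`. If `g` is odd then `d = 1` (Frobenius and Schur) and
there is at most one. In general the sum of `d ^ 2` over those with `d < y` is at most the largest
divisor of `g` composed of primes `≤ y`; and over all of them at most the degree of a field which
contains all subfields normal over `ℚ`.

(E) For the bounds with a power saving the number of the components with `c ≤ 2` is estimated by the
number of the classes of cyclic subgroups of `G / L`, `L` the intersection of their kernels, using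
the theorem of Sylow; here the order of `G / L` is at most `2 g 2 ^ Ω(2 g)` because `H K / K` has
order at most two and is not central. Lemmas of this part were proved by helper24, helper38,
helper178, helper204, helper227, helper261 and helper275 of this team.

(G) For (`AllFields`) let `φ i` be the embeddings of a type. The functions `D` with relations are
zeros of the polynomial `det (D (σ j φ i))` of degree `g` in the `g` variables `D (φ i)`, for all
automorphisms `σ j` of `ℂ`; if `σ j` maps `φ j` to `φ 1` then it is not zero, since its value for
the function with the values `1` at `φ 1`, `-1` at its conjugate and `0` elsewhere is the
determinant of the unit matrix. Then the lemma of Schwartz and Zippel gives the bound.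
-/

set_option autoImplicit false

namespace Pool.Agent.Results.MP_3703a7_ag.TypicalFields

open NumberField Module IntermediateField Pool.Agent.H204R3.CM Pool.Agent.H977R3.CM
  Pool.Agent.TH170 Pool.Agent.TH170.FW Pool.Agent.Y1.KN Pool.Agent.Y1.CT Pool.Agent.Y1.TS
  Pool.Agent.Y137.MV Pool.Agent.Y137.SL Pool.Agent.Q29.TE

open Pool.Agent.Q29.DP (notMem_degTypes_of_noRelations)

open Pool.Agent.Q29.BX (AllFields allFields)

/-- The eigenvalues of `T` are roots of a rational polynomial `f ≠ 0`, `f (T) = 0`, all of whose
complex roots are unrelated to the fields `K i`. -/
def UnrelatedEigenvalues {I : Type} (K : I → Type) [∀ i, Field (K i)] {k H : Type} [Field k]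
    [CharZero k] [AddCommGroup H] [Module k H] (T : Module.End k H) : Prop :=
  ∃ f : Polynomial ℚ, f ≠ 0 ∧ Polynomial.aeval T (f.map (algebraMap ℚ k)) = 0 ∧
    ∀ α : ℂ, Polynomial.aeval α f = 0 → ∀ i, UnrelatedTo (K i) α

/-- The homomorphisms between the representations `N ⊗ S` and `N'`, for the representations `S` in
the exterior algebras of the powers of `V`, are generated by the Tate classes of degree two on the
powers of `A` and by the homomorphisms between `N` and the twists of `N'`, whenever `A` has a
Frobenius element `γ` at a place with `p ^ a` elements in the residue field with the characteristic
polynomial `∏ i, minpoly (π i)` and the eigenvalues of `γ` on `Hom (N, N')` are unrelated to the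
fields `K i`. -/
def HomsSplit {p : ℕ} [Fact p.Prime] (a : ℕ) {I : Type} [Fintype I] (K : I → Type)
    [∀ i, Field (K i)] [∀ i, NumberField (K i)] [∀ i, IsCMField (K i)] (π : ∀ i, K i) : Prop :=
  ∀ (k : Type) [Field k] [CharZero k] (V N N' : Type) [AddCommGroup V] [Module k V]
    [AddCommGroup N] [Module k N] [AddCommGroup N'] [Module k N'] [FiniteDimensional k V]
    [FiniteDimensional k N] [FiniteDimensional k N'] (Γ : Type) [Group Γ]
    (ρ : Representation k Γ V) (τ : Representation k Γ N) (τ' : Representation k Γ N')
    (χ : Γ →* k) (γ : Γ), IsPolarised ρ χ γ p a π →
    UnrelatedEigenvalues K (τ.linHom τ' γ) → ClassesSplit ρ χ (τ.linHom τ')

/-- The property of the slope types `Φ i` with the weights `M i`. -/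
def Q : TypeProperty := fun p _ ν _ _ K _ _ _ M Φ =>
  ForAllWeil ν K M (fun a π => HomsSplit (p := p) a K π) Φ

/-- **The Tate conjecture for the homomorphisms between the tensor products of two arbitrary motives
with the motives generated by `A` is equivalent to the one for the two motives, for the abelian
varieties `A` over number fields with a Frobenius element of almost all slope types of typical CM
fields.** -/
theorem result : MostTypes Q ∧ OddDegrees Q ∧ AllFields Q ∧ AlmostAllTypes Q ∧
    AlmostAllDegrees := by
  have h : WithoutRelations Q := by
    intro p _ ν I _ K _ _ _ M Φ hind hMc hΦ hno
    have hnd : ∀ i, Φ i ∉ degTypes (M i) := fun i => notMem_degTypes_of_noRelations (hno i)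
    intro a π ha hπ k _ _ V N N' _ _ _ _ _ _ _ _ _ Γ _ ρ τ τ' χ γ hp hf
    obtain ⟨f, hf0, hfγ, hf⟩ := hf
    exact split_of_angle (fun i => (hπ i).gen) (fun i => (hπ i).weil)
      (angle_types hind hMc hΦ hnd hπ) k V (N →ₗ[k] N') Γ ρ (τ.linHom τ') χ γ hp f hf0 hfγ hf
  exact ⟨mostTypes h, oddDegrees h, allFields h, almostAllTypes h, almostAllDegrees⟩

end Pool.Agent.Results.MP_3703a7_ag.TypicalFields
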